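import Mathlib

namespace Pool.Agent.Results.MP_4cb54f_co.NoSmall

lemma key (R C f k m u u' : ℤ) (hR : 1 ≤ R) (hC : 1 ≤ C) (hk : 1 ≤ k) (hf : 1 ≤ f)
    (hm : m = f - k) (h1 : R * C = (f + 1) * m) (h2 : (R + f) * u = (f + 1) * k)
    (h3 : (C + f) * u' = (f + 1) * k) : False := by
  have hm0 : 0 < m := by
    by_contra h
    nlinarith [mul_pos (by omega : 0 < R) (by omega : 0 < C)]
  have hu0 : 0 < u := by
    by_contra h
    nlinarith
  have hu0' : 0 < u' := by
    by_contra h
    nlinarith
  have huk : u ≤ k := by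
    by_contra h
    nlinarith
  have huk' : u' ≤ k := by
    by_contra h
    nlinarith
  have e1 : R * u = (f + 1) * k - f * u := by linarith
  have e2 : C * u' = (f + 1) * k - f * u' := by linarith
  have e3 : (f + 1) * m * (u * u') = ((f + 1) * k - f * u) * ((f + 1) * k - f * u') := by
    rw [← e1, ← e2, ← h1]; ring
  set j := m * (u * u') - (f + 1) * k ^ 2 + f * k * (u + u') - (f - 1) * (u * u') with hj
  have e4 : u * u' = (f + 1) * j := by
    rw [hj]; linear_combination -e3
  have hj0 : 0 < j := by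
    by_contra h
    nlinarith [mul_pos hu0 hu0']
  have hkk : u * u' ≤ k * k := mul_le_mul huk huk' hu0'.le (by omega)
  have hjk : j < k := by
    by_contra h
    nlinarith
  have e5 : m * ((f + 1) * j) = (f + 1) * k ^ 2 - f * k * (u + u') + f ^ 2 * j := by
    have : (f + 1) ≠ 0 := by omega
    apply mul_left_cancel₀ this
    rw [e4] at e3
    linear_combination e3 + f ^ 2 * e4
  have e6 : k * (k + j) = f * (j - k * (k + j - u - u')) := by
    rw [hm] at e5
    linear_combination -e5
  rcases lt_trichotomy (k + j - u - u') 0 with h | h | h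
  · have : k * 1 ≤ k * -(k + j - u - u') := mul_le_mul_of_nonneg_left (by omega) (by omega)
    nlinarith
  · rw [h] at e6
    nlinarith
  · have : k * 1 ≤ k * (k + j - u - u') := mul_le_mul_of_nonneg_left (by omega) (by omega)
    nlinarith

theorem result (v r c : ℕ) (hr : 2 ≤ r) (hc : 2 ≤ c) (hv : max r c < v) (hv2 : 2 * v ≤ r * c)
    (h1 : v ∣ r * c) (h2 : r - 1 ∣ c * (r * c / v - 1)) (h3 : c - 1 ∣ r * (r * c / v - 1)) :
    r + c - 1 ≤ v := by
  by_contra hcon
  obtain ⟨e, he⟩ := h1
  have hv0 : 0 < v := by omega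
  rw [he, Nat.mul_div_cancel_left _ hv0] at h2 h3
  have hrv : r < v := lt_of_le_of_lt (le_max_left _ _) hv
  have hcv : c < v := lt_of_le_of_lt (le_max_right _ _) hv
  have he2 : 2 ≤ e := by
    by_contra h
    have : e ≤ 1 := by omega
    nlinarith
  have her : e < r := by
    by_contra h
    nlinarith
  have hec : e < c := by
    by_contra h
    nlinarith
  obtain ⟨a, ha⟩ := h2
  obtain ⟨b, hb⟩ := h3
  zify [show 1 ≤ e by omega, show 1 ≤ r by omega, show 1 ≤ c by omega] at ha hb he
  refine key ((r : ℤ) - e) (c - e) (e - 1) (r + c - 1 - v) (v - r - c + e) (a - (c - e))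
    (b - (r - e)) (by omega) (by omega) (by omega) (by omega) (by ring) ?_ ?_ ?_
  · linear_combination he
  · linear_combination -ha - he
  · linear_combination -hb - he

end Pool.Agent.Results.MP_4cb54f_co.NoSmall
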